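import Mathlib
import Pool.Agent.Helper85_CYD.StG

/-! # CYD, module ABS -/

set_option autoImplicit false

open Polynomial IsLocalRing

namespace Pool.Agent.CYD.H76

open Pool.Agent.CYD

lemma aeval_rev {K : Type} [Field K] (f : ℤ[X]) (x : K) (hx : x ≠ 0) :
    aeval x f.reverse = x ^ f.natDegree * aeval x⁻¹ f := by
  let _inst : Invertible x⁻¹ := invertibleOfNonzero (inv_ne_zero hx)
  have h1 := eval₂_reverse_mul_pow (Int.castRingHom K) x⁻¹ f
  have h2 : ⅟(x⁻¹) = x := by rw [invOf_eq_inv, inv_inv]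
  rw [h2] at h1
  have h3 : aeval x⁻¹ f = eval₂ (Int.castRingHom K) x⁻¹ f := by
    rw [aeval_def, algebraMap_int_eq]
  have h4 : aeval x f.reverse = eval₂ (Int.castRingHom K) x f.reverse := by
    rw [aeval_def, algebraMap_int_eq]
  rw [h3, h4, ← h1]
  have h5 : x ^ f.natDegree * (eval₂ (Int.castRingHom K) x f.reverse * x⁻¹ ^ f.natDegree) =
      eval₂ (Int.castRingHom K) x f.reverse * (x * x⁻¹) ^ f.natDegree := by
    rw [mul_pow]; ring
  rw [h5, mul_inv_cancel₀ hx, one_pow, mul_one]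

theorem abs_mod (hDvd : DvdStmt) : AbsStmt := by
  intro n g h F K _ _ x hx
  have hn : 0 < n := by have := F.hn; omega
  have key : ∀ y : K, IsPrimitiveRoot y n → aeval y g ≠ 0 := by
    intro y hy h0
    obtain ⟨v, r, hr⟩ := hDvd n g h F
    have h1 := congrArg (aeval y) hr
    have h2 : aeval y (cyclotomic n ℤ) = 0 := by
      rw [aeval_def, algebraMap_int_eq, eval₂_eq_eval_map, map_cyclotomic_int]
      exact hy.isRoot_cyclotomic hn
    simp only [map_sub, map_mul, h2, zero_mul, h0, zero_sub, neg_eq_zero, aeval_C] at h1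
    have h3 : ((n : ℤ) : K) = 0 := by simpa using h1
    have h4 : (n : K) = 0 := by exact_mod_cast h3
    rw [Nat.cast_eq_zero] at h4
    omega
  have hx0 : x ≠ 0 := hx.ne_zero (by omega)
  have hrev := aeval_rev g x hx0
  have hne : aeval x g.reverse ≠ 0 := by
    rw [hrev]
    exact mul_ne_zero (pow_ne_zero _ hx0) (key _ hx.inv)
  refine ⟨key x hx, hne, ?_⟩
  intro φ
  have hφ : ∀ (f : ℤ[X]) (y : K), φ (aeval y f) = aeval (φ y) f := by
    intro f y
    rw [aeval_def, aeval_def, hom_eval₂, algebraMap_int_eq, algebraMap_int_eq]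
    congr 1
    exact RingHom.ext_int _ _
  have hz : ‖φ x‖ = 1 := by
    have h1 : (φ x) ^ n = 1 := by rw [← map_pow, hx.pow_eq_one, map_one]
    exact Complex.norm_eq_one_of_pow_eq_one h1 (by omega)
  have hinv : (φ x)⁻¹ = (starRingEnd ℂ) (φ x) := by
    rw [Complex.inv_def, Complex.normSq_eq_norm_sq, hz]
    simp
  have hconj : aeval ((starRingEnd ℂ) (φ x)) g = (starRingEnd ℂ) (aeval (φ x) g) := by
    rw [aeval_def, aeval_def, hom_eval₂, algebraMap_int_eq]
    congr 1
    exact RingHom.ext_int _ _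
  have h2 : ‖φ (aeval x g.reverse)‖ = ‖φ (aeval x g)‖ := by
    rw [hrev, map_mul, map_pow, norm_mul, norm_pow, hz, one_pow, one_mul, hφ, map_inv₀, hinv,
      hconj, RCLike.norm_conj, hφ]
  unfold uu
  rw [map_div₀, norm_div, h2]
  apply div_self
  rw [norm_ne_zero_iff]
  exact (map_ne_zero φ).2 (key x hx)

end Pool.Agent.CYD.H76
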