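import Mathlib
import Pool.Agent.Helper85_CYD.StG
import Pool.Agent.Helper85_CYD.St1

/-! # CYD, module T3 -/

set_option autoImplicit false

open Polynomial IsLocalRing

namespace Pool.Agent.CYD.H76

open Pool.Agent.CYD

lemma red_mul (L : Type) [CommRing L] (f g : ℤ[X]) : red L (f * g) = red L f * red L g := by
  unfold red; exact Polynomial.map_mul _

/-- The reduction of the derivative. -/
lemma red_der {n p : ℕ} (hn : n = p * 3) (hp : p.Prime) (h3 : 3 < p) (L : Type) [Field L]
    [CharP L p] : red L (derivative (cyclotomic n ℤ)) =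
      C ((p - 1 : ℕ) : L) * (cyclotomic 3 L ^ (p - 2) * derivative (cyclotomic 3 L)) := by
  have : Fact p.Prime := ⟨hp⟩
  have hd : ¬ p ∣ 3 := fun h => by
    have := Nat.le_of_dvd (by norm_num) h
    omega
  unfold red
  rw [← derivative_map, map_cyclotomic, hn, mul_comm,
    cyclotomic_mul_prime_eq_pow_of_not_dvd L hd, derivative_pow]
  have : p - 1 - 1 = p - 2 := by omega
  rw [this]
  ring

/-- The main argument. -/
lemma main (hSum : SumStmt) (hBas : BasStmt) (hCoe : CoeStmt) (hRev : RevStmt) {n p : ℕ}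
    {g h : ℤ[X]} (F : Fac n p 3 g h) (h3 : 3 < p) (L : Type) [Field L] [CharP L p] (a : L)
    (ha : IsPrimitiveRoot a 3) (h1 : rootMultiplicity a (red L g) = 0)
    (h2 : rootMultiplicity (a ^ 2) (red L g) = 0) : False := by
  have hp := F.hp
  have : Fact p.Prime := ⟨hp⟩
  have hn := F.hn
  have hG := F.toFg
  obtain ⟨b0, b1, b2, b3⟩ := hBas n g h hG
  obtain ⟨-, b1', -, -⟩ := hBas n h g hG.swap
  have htot : n.totient = 2 * (p - 1) := by
    rw [hn, Nat.totient_mul ((Nat.coprime_primes hp Nat.prime_three).2 F.hpq),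
      Nat.totient_prime hp, Nat.totient_prime Nat.prime_three]
    omega
  have hp5 : 5 ≤ p := by
    rcases Nat.lt_or_ge p 5 with h | h
    · have : p = 4 := by omega
      subst this
      exact absurd hp (by norm_num)
    · exact h
  -- degree of g is one
  have hg0 : red L g ≠ 0 := (hSum n p 3 g h hG hp hn L a ha).1
  have hp2 : (2 : L) ≠ 0 := by
    intro h
    have h4 : ((2 : ℕ) : L) = 0 := by exact_mod_cast h
    rw [CharP.cast_eq_zero_iff L p] at h4
    have := Nat.le_of_dvd (by norm_num) h4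
    omega
  have hp1 : ((p - 1 : ℕ) : L) = -1 := by
    rw [Nat.cast_sub hp.one_le, CharP.cast_eq_zero L p]
    simp
  have hlc : ((g.leadingCoeff : ℤ) : L) ≠ 0 := by
    intro h
    have h4 := congrArg (fun z : ℤ => (z : L)) b2
    simp only [Int.cast_mul, h, zero_mul, Int.cast_natCast, htot, Nat.cast_mul, hp1] at h4
    apply hp2
    have h5 : (2 : L) = -(((2 : ℕ) : L) * -1) := by push_cast; ring
    rw [h5, ← h4, neg_zero]
  have hdeg : (red L g).natDegree = g.natDegree := by
    unfold red
    exact natDegree_map_of_leadingCoeff_ne_zero _ (by simpa using hlc)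
  have ha2 : IsPrimitiveRoot (a ^ 2) 3 := ha.pow_of_coprime 2 (by norm_num)
  have hcyc : cyclotomic 3 L = (X - C a) * (X - C (a ^ 2)) := by
    have h4 : a ^ 2 + a + 1 = 0 := by
      have h5 : a ^ 3 = 1 := ha.pow_eq_one
      have h6 : (a - 1) * (a ^ 2 + a + 1) = 0 := by ring_nf; rw [h5]; ring
      rcases mul_eq_zero.1 h6 with h7 | h7
      · exact absurd (sub_eq_zero.1 h7) (ha.ne_one (by norm_num))
      · exact h7
    rw [cyclotomic_three]
    have h5 : (X - C a) * (X - C (a ^ 2)) = X ^ 2 + X + 1 - C (a ^ 2 + a + 1) * X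
        + C (a * (a ^ 2 + a + 1) - (a ^ 2 + a + 1)) := by
      simp only [C_add, C_mul, C_pow, C_sub, map_one]
      ring
    rw [h5, h4]
    simp
  have hcop1 : IsCoprime (red L g) (X - C a) := by
    rw [isCoprime_comm]
    refine (irreducible_X_sub_C a).coprime_iff_not_dvd.2 ?_
    intro hd
    have := (rootMultiplicity_pos hg0).2 (dvd_iff_isRoot.1 hd)
    omega
  have hcop2 : IsCoprime (red L g) (X - C (a ^ 2)) := by
    rw [isCoprime_comm]
    refine (irreducible_X_sub_C (a ^ 2)).coprime_iff_not_dvd.2 ?_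
    intro hd
    have := (rootMultiplicity_pos hg0).2 (dvd_iff_isRoot.1 hd)
    omega
  have hcop : IsCoprime (red L g) (cyclotomic 3 L ^ (p - 2)) := by
    apply IsCoprime.pow_right
    rw [hcyc]
    exact hcop1.mul_right hcop2
  have hprod : red L g * red L h =
      cyclotomic 3 L ^ (p - 2) * (C (-1) * (C 2 * X + 1)) := by
    rw [← red_mul, F.fac, red_der hn hp h3 L, hp1, cyclotomic_three]
    have : derivative (X ^ 2 + X + 1 : L[X]) = C 2 * X + 1 := by
      rw [derivative_add, derivative_add, derivative_X_pow, derivative_X, derivative_one]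
      norm_num
    rw [this]
    ring
  have hdvd : red L g ∣ C (-1) * (C 2 * X + 1) := by
    refine hcop.dvd_of_dvd_mul_left ?_
    rw [← hprod]
    exact dvd_mul_right _ _
  have hdvd2 : red L g ∣ C 2 * X + 1 := by
    have h4 := hdvd.mul_left (C (-1))
    have h5 : C (-1) * (C (-1) * (C 2 * X + 1)) = (C 2 * X + 1 : L[X]) := by
      rw [← mul_assoc, ← C_mul]
      simp
    rwa [h5] at h4
  have hne : (C 2 * X + 1 : L[X]) ≠ 0 := by
    intro h
    have := congrArg (fun f => coeff f 1) h
    simp [coeff_one] at this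
    exact hp2 this
  have hle : (red L g).natDegree ≤ 1 := by
    refine (natDegree_le_of_dvd hdvd2 hne).trans ?_
    have : (C 2 * X + 1 : L[X]) = C 2 * X + C 1 := by simp
    rw [this]
    exact natDegree_linear_le
  have hg1 : g.natDegree = 1 := by
    have := F.hg
    omega
  have hA : g.leadingCoeff = g.coeff 1 := by unfold leadingCoeff; rw [hg1]
  have hgeq : g = C (g.coeff 1) * X + C (g.coeff 0) := eq_X_add_C_of_natDegree_le_one hg1.le
  -- the congruence
  have hAL : ((g.coeff 1 : ℤ) : L) ≠ 0 := by rw [← hA]; exact hlc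
  have hroot : ((g.coeff 1 : ℤ) : L) = 2 * ((g.coeff 0 : ℤ) : L) := by
    obtain ⟨r, hr⟩ := hdvd2
    have h4 := congrArg (fun f => eval (-((g.coeff 0 : ℤ) : L) / ((g.coeff 1 : ℤ) : L)) f) hr
    have h5 : eval (-((g.coeff 0 : ℤ) : L) / ((g.coeff 1 : ℤ) : L)) (red L g) = 0 := by
      have h6 : red L g = C ((g.coeff 1 : ℤ) : L) * X + C ((g.coeff 0 : ℤ) : L) := by
        unfold red
        conv_lhs => rw [hgeq]
        rw [Polynomial.map_add, Polynomial.map_mul, map_C, map_X, map_C]
        rfl
      rw [h6]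
      simp only [eval_add, eval_mul, eval_C, eval_X]
      field_simp
      ring
    simp only [eval_mul, h5, zero_mul, eval_add, eval_C, eval_X, eval_one] at h4
    field_simp at h4
    linear_combination h4
  have hmod : (p : ℤ) ∣ g.coeff 1 - 2 * g.coeff 0 := by
    rw [← CharP.intCast_eq_zero_iff L p]
    push_cast
    rw [hroot]
    ring
  -- the leading coefficient is 2 or -2
  rw [hA] at b1 b2
  have hAB : g.coeff 1 * h.leadingCoeff = 2 * ((p : ℤ) - 1) := by
    rw [b2, htot]
    push_cast [Nat.cast_sub hp.one_le]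
    ring
  have hAle : |g.coeff 1| ≤ (p : ℤ) - 1 := by
    have h4 : |g.coeff 1| * |h.leadingCoeff| = 2 * ((p : ℤ) - 1) := by
      rw [← abs_mul, hAB, abs_of_nonneg]
      have : (5 : ℤ) ≤ p := by exact_mod_cast hp5
      linarith
    nlinarith [abs_nonneg (g.coeff 1)]
  have hp5' : (5 : ℤ) ≤ p := by exact_mod_cast hp5
  have hA2 : g.coeff 1 = 2 * g.coeff 0 := by
    obtain ⟨k, hk⟩ := hmod
    obtain ⟨l1, l2⟩ := abs_le.1 hAle
    have hk1 : k < 2 := by
      by_contra hc
      have : (p : ℤ) * 2 ≤ p * k := mul_le_mul_of_nonneg_left (by omega) (by linarith)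
      rcases b0 with b0 | b0 <;> rw [b0] at hk <;> linarith
    have hk2 : -2 < k := by
      by_contra hc
      have : (p : ℤ) * k ≤ p * (-2) := mul_le_mul_of_nonneg_left (by omega) (by linarith)
      rcases b0 with b0 | b0 <;> rw [b0] at hk <;> linarith
    have hdv : ∀ A : ℤ, A * h.leadingCoeff = 2 * ((p : ℤ) - 1) → ((p : ℤ) - 2) ∣ A → False := by
      intro A hA' hd
      have h4 : ((p : ℤ) - 2) ∣ 2 * ((p : ℤ) - 1) := by
        rw [← hA']; exact hd.mul_right _
      have h5 : ((p : ℤ) - 2) ∣ 2 := by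
        have h6 := dvd_sub h4 (Dvd.intro_left (2 : ℤ) (rfl : 2 * ((p : ℤ) - 2) = _))
        have h7 : 2 * ((p : ℤ) - 1) - 2 * ((p : ℤ) - 2) = 2 := by ring
        rwa [h7] at h6
      have := Int.le_of_dvd (by norm_num) h5
      linarith
    have hk3 : k = -1 ∨ k = 0 ∨ k = 1 := by omega
    rcases hk3 with rfl | rfl | rfl
    · exfalso
      rcases b0 with b0 | b0
      · rw [b0] at hk
        have h4 : g.coeff 1 = -((p : ℤ) - 2) := by linarith
        exact hdv _ hAB ⟨-1, by rw [h4]; ring⟩
      · rw [b0] at hk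
        have h4 : g.coeff 1 = -(p : ℤ) - 2 := by linarith
        rw [h4] at l1
        linarith
    · linarith
    · exfalso
      rcases b0 with b0 | b0
      · rw [b0] at hk
        have h4 : g.coeff 1 = (p : ℤ) + 2 := by linarith
        rw [h4] at l2
        linarith
      · rw [b0] at hk
        have h4 : g.coeff 1 = (p : ℤ) - 2 := by linarith
        exact hdv _ hAB ⟨1, by rw [h4]; ring⟩
  -- parity
  have hlch : Even h.leadingCoeff := by
    have h4 : g.coeff 0 * h.leadingCoeff = (p : ℤ) - 1 := by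
      have : 2 * (g.coeff 0 * h.leadingCoeff) = 2 * ((p : ℤ) - 1) := by
        rw [← hAB, hA2]; ring
      linarith
    have hodd : Odd (p : ℤ) := by exact_mod_cast hp.odd_of_ne_two F.hp2
    have h5 : Even ((p : ℤ) - 1) := by
      obtain ⟨k, hk⟩ := hodd
      exact ⟨k, by rw [hk]; ring⟩
    rcases b0 with b0 | b0
    · rw [b0, one_mul] at h4
      rw [h4]; exact h5
    · rw [b0] at h4
      have : h.leadingCoeff = -((p : ℤ) - 1) := by linarith
      rw [this]; exact h5.neg
  obtain ⟨m, hm⟩ : ∃ m, h.natDegree = m + 1 := ⟨h.natDegree - 1, by have := F.hh; omega⟩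
  have hN : n.totient = m + 3 := by omega
  have hE : Even ((derivative (cyclotomic n ℤ)).coeff (m + 1)) := by
    rw [← F.fac, hgeq, add_mul, coeff_add, mul_assoc, coeff_C_mul, coeff_X_mul, coeff_C_mul]
    have h4 : h.coeff (m + 1) = h.leadingCoeff := by unfold leadingCoeff; rw [hm]
    rw [h4]
    apply Even.add
    · rw [hA2]
      exact (even_two_mul _).mul_right _
    · exact hlch.mul_left _
  have hdd : (derivative (cyclotomic n ℤ)).natDegree = m + 2 := by
    have h4 : g ≠ 0 := fun h => by rw [h] at hg1; simp at hg1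
    have h5 : h ≠ 0 := fun h' => by rw [h'] at hm; simp at hm
    rw [← F.fac, natDegree_mul h4 h5, hg1, hm]
    ring
  obtain ⟨-, c1⟩ := hCoe n hG.hs (by have := hG.hn; omega)
  have hr := congrArg (fun f => coeff f (m + 2)) (hRev n hG.hn)
  simp only [coeff_add, coeff_C_mul] at hr
  have hr1 : (derivative (cyclotomic n ℤ)).reverse.coeff (m + 2) = (cyclotomic n ℤ).coeff 1 := by
    rw [coeff_reverse, hdd, revAt_le (le_refl _), Nat.sub_self, coeff_derivative]
    simp
  have hr2 : (X * derivative (cyclotomic n ℤ)).coeff (m + 2) =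
      (derivative (cyclotomic n ℤ)).coeff (m + 1) := coeff_X_mul _ _
  rw [hr1, hr2, htot] at hr
  have hev : Even (((2 * (p - 1) : ℕ) : ℤ) * (cyclotomic n ℤ).coeff (m + 2)) := by
    push_cast
    exact ((even_two_mul _)).mul_right _
  rw [← hr] at hev
  have hc1 : Even ((cyclotomic n ℤ).coeff 1) := by
    have := hev.sub hE
    simpa using this
  rcases c1 with c1 | c1 <;> rw [c1] at hc1 <;> revert hc1 <;> decide

theorem t3 (hSum : SumStmt) (hBas : BasStmt) (hCoe : CoeStmt) (hRev : RevStmt) : T3Stmt := by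
  intro n p g h F h3 L _ _ a ha hmu hor
  have hp := F.hp
  have ha2 : IsPrimitiveRoot (a ^ 2) 3 := ha.pow_of_coprime 2 (by norm_num)
  rcases hor with h0 | h0
  · exact main hSum hBas hCoe hRev F h3 L a ha h0 (by rw [← hmu]; exact h0)
  · have s1 := (hSum n p 3 g h F.toFg hp F.hn L a ha).2
    have s2 := (hSum n p 3 g h F.toFg hp F.hn L (a ^ 2) ha2).2
    exact main hSum hBas hCoe hRev F.swap h3 L a ha h0 (by omega)

end Pool.Agent.CYD.H76
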